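import Pool.Agent.H19.HpB

/-! The `k`-multiset graph of the friendship graph with `k` triangles is Hamiltonian. -/

set_option maxHeartbeats 400000

namespace Pool.Agent.Results.MP_593b6a_co.Friendship

open SimpleGraph Multiset Pool.Agent.H19.Hp

/-- The `k`-multiset graph `M_k(G)`: its vertices are the multisets of `k` vertices of `G`, and
`A`, `B` are adjacent when `B` arises from `A` by removing one copy of a vertex `u` and adding one
copy of a neighbour `v` of `u`. -/
def multisetGraph {V : Type} (G : SimpleGraph V) (k : ℕ) : SimpleGraph (Sym V k) where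
  Adj A B := ∃ (u v : V) (C : Multiset V), G.Adj u v ∧
    (A : Multiset V) = u ::ₘ C ∧ (B : Multiset V) = v ::ₘ C
  symm := ⟨fun _ _ ⟨u, v, C, h1, h2, h3⟩ => ⟨v, u, C, h1.symm, h3, h2⟩⟩
  loopless := ⟨fun _ ⟨_, _, C, h1, h2, h3⟩ => h1.ne ((cons_inj_left C).1 (h2.symm.trans h3))⟩

/-- The friendship graph: `k` triangles `{none, some (i, false), some (i, true)}` sharing the
vertex `none`. -/
def friendship (k : ℕ) : SimpleGraph (Option (Fin k × Bool)) where
  Adj x y := x ≠ y ∧ ∀ a b, x = some a → y = some b → a.1 = b.1
  symm := ⟨fun _ _ h => ⟨h.1.symm, fun a b ha hb => (h.2 b a hb ha).symm⟩⟩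
  loopless := ⟨fun _ h => h.1 rfl⟩

lemma same_triangle {k : ℕ} {x z : Option (Fin k × Bool)} (q : (friendship k).Walk x z)
    (hz : z = none) (hq : q.IsPath) : ∀ a, x = some a → ∀ b, some b ∈ q.support → b.1 = a.1 := by
  induction q with
  | nil => intro a ha; rw [hz] at ha; cases ha
  | @cons u v w h q ih =>
    rintro a rfl b hb
    rw [Walk.cons_isPath_iff] at hq
    simp only [Walk.support_cons, List.mem_cons] at hb
    rcases hb with hb | hb
    · rw [Option.some.inj hb]
    · cases v with
      | none =>
        subst hz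
        rw [Walk.isPath_iff_eq_nil.1 hq.1] at hb
        simp at hb
      | some c => rw [ih hz hq.1 c rfl b hb, h.2 a c rfl rfl]

lemma not_ham (k : ℕ) (hk : 2 ≤ k) : ¬ (friendship k).IsHamiltonian := by
  intro h
  haveI : Nontrivial (Option (Fin k × Bool)) := ⟨none, some (⟨0, by omega⟩, false), by simp⟩
  obtain ⟨p, hp⟩ := h.exists_isHamiltonianCycle none
  have ht := hp.isHamiltonian_tail
  have hs := (p.adj_snd hp.isCycle.not_nil).ne
  obtain ⟨a, ha⟩ := Option.ne_none_iff_exists'.1 hs.symm
  have h0 := same_triangle p.tail rfl ht.isPath a ha (⟨0, by omega⟩, false) (ht.mem_support _)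
  have h1 := same_triangle p.tail rfl ht.isPath a ha (⟨1, by omega⟩, false) (ht.mem_support _)
  simpa using congrArg Fin.val (h0.trans h1.symm)

lemma split {X : Type} (B : Multiset (Option X)) :
    ∃ (A : Multiset X) (n : ℕ), B = A.map some + replicate n none := by
  induction B using Multiset.induction_on with
  | empty => exact ⟨0, 0, by simp⟩
  | cons w B ih =>
    obtain ⟨A, n, rfl⟩ := ih
    cases w with
    | none => exact ⟨A, n + 1, by simp [replicate_succ]⟩
    | some a => exact ⟨a ::ₘ A, n, by simp⟩

theorem result (k : ℕ) (hk : 3 ≤ k) : k + 1 ≤ Fintype.card (Option (Fin k × Bool)) ∧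
    ¬ (friendship k).IsHamiltonian ∧ (multisetGraph (friendship k) k).IsHamiltonian := by
  refine ⟨by simp; omega, not_ham k (by omega), ?_⟩
  obtain ⟨z, hz1, hz⟩ := all (K := k) k le_rfl
  have hex : ∀ A : Multiset (W k), ∃ B : Sym (Option (W k)) k, card A ≤ k →
      (B : Multiset (Option (W k))) = A.map some + replicate (k - card A) none := by
    intro A
    by_cases h : card A ≤ k
    · exact ⟨⟨A.map some + replicate (k - card A) none, by simp; omega⟩, fun _ => rfl⟩
    · exact ⟨Sym.replicate k none, fun h' => absurd h' h⟩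
  choose f hf using hex
  have up : ∀ (A : Multiset (W k)) (v : W k), card (v ::ₘ A) ≤ k →
      (multisetGraph (friendship k) k).Adj (f A) (f (v ::ₘ A)) := by
    intro A v h
    have h' := h
    rw [card_cons] at h'
    refine ⟨none, some v, A.map some + replicate (k - card (v ::ₘ A)) none,
      ⟨by simp, by simp⟩, ?_, ?_⟩
    · rw [hf A (by omega), card_cons, show k - card A = k - (card A + 1) + 1 by omega]
      simp [replicate_succ]
    · rw [hf _ h]
      simp
  have adj : ∀ A ∈ St k k k, ∀ B ∈ St k k k, (R k).Adj A B →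
      (multisetGraph (friendship k) k).Adj (f A) (f B) := by
    rintro A hA B hB (⟨v, rfl⟩ | ⟨v, rfl⟩ | ⟨u, v, C, h1, h2, rfl, rfl⟩)
    · exact up _ _ hB.2
    · exact (up _ _ hA.2).symm
    · refine ⟨some u, some v, C.map some + replicate (k - (card C + 1)) none,
        ⟨by simpa using h1, ?_⟩, ?_, ?_⟩
      · rintro a b ⟨⟩ ⟨⟩
        exact h2
      · rw [hf _ hA.2]
        simp
      · rw [hf _ hB.2]
        simp
  have h := (hz k le_rfl).map (G' := multisetGraph (friendship k) k) f (by
    intro A hA B hB h
    have e := congrArg (fun s : Sym (Option (W k)) k => (s : Multiset (Option (W k)))) h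
    simp only [hf A hA.2, hf B hB.2] at e
    ext w
    have := congrArg (count (some w)) e
    simpa [count_map_eq_count' _ _ (Option.some_injective _), count_replicate] using this) adj
  have h2 := h.congr (T := Set.univ) (by
    intro B
    refine ⟨fun _ => trivial, fun _ => ?_⟩
    obtain ⟨A, n, hB⟩ := split (B : Multiset (Option (W k)))
    have hc := congrArg card hB
    simp only [Sym.card_coe, card_add, card_map, card_replicate] at hc
    refine ⟨A, ⟨fun w _ => w.1.2, by omega⟩, Subtype.ext ?_⟩
    have := hf A (by omega)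
    rw [show k - card A = n by omega, ← hB] at this
    exact this)
  obtain ⟨v, rfl⟩ := card_eq_one.1 (hz1 (by omega))
  refine h2.ham (up 0 v (by simp; omega)).symm ?_
  refine Fintype.two_lt_card_iff.2 ⟨Sym.replicate k none,
    Sym.replicate k (some (⟨0, by omega⟩, false)), Sym.replicate k (some (⟨0, by omega⟩, true)),
    ?_, ?_, ?_⟩ <;>
  · rw [Ne, Sym.replicate_right_inj (by omega)]
    simp

end Pool.Agent.Results.MP_593b6a_co.Friendship
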